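import Mathlib
import Pool.Agent.H95.Perc.Conn

/-!
Positive association and monotonicity in the domain for the self-dual random-cluster model, `q ≥ 1`.
-/

namespace Pool.Agent.H95.Susc

open Finset Pool.Agent.H95.SumRule Pool.Agent.H95.Perc

set_option linter.unusedSectionVars false

section
variable {α : Type*} [DecidableEq α]

open Classical in
/-- subsets of `E` satisfying `A` -/
noncomputable def fil (E : Finset α) (A : Finset α → Prop) : Finset (Finset α) := E.powerset.filter A

lemma mem_fil {E : Finset α} {A : Finset α → Prop} {ω : Finset α} : ω ∈ fil E A ↔ ω ⊆ E ∧ A ω := by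
  classical
  unfold fil; rw [mem_filter, mem_powerset]

/-- weight of an event among the subsets of `E` -/
noncomputable def ws (w : Finset α → ℝ) (E : Finset α) (A : Finset α → Prop) : ℝ :=
  ∑ ω ∈ fil E A, w ω

/-- lattice condition on the subsets of `E` -/
def Lat (w : Finset α → ℝ) (E : Finset α) : Prop :=
  ∀ a ⊆ E, ∀ b ⊆ E, w a * w b ≤ w (a ∩ b) * w (a ∪ b)

lemma ws_congr {w : Finset α → ℝ} {E : Finset α} {A B : Finset α → Prop}
    (h : ∀ ω ⊆ E, A ω ↔ B ω) : ws w E A = ws w E B := by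
  unfold ws
  congr 1
  ext ω
  rw [mem_fil, mem_fil]
  constructor
  · exact fun k => ⟨k.1, (h ω k.1).mp k.2⟩
  · exact fun k => ⟨k.1, (h ω k.1).mpr k.2⟩

lemma ws_nonneg {w : Finset α → ℝ} (hw : ∀ ω, 0 ≤ w ω) (E : Finset α) (A : Finset α → Prop) :
    0 ≤ ws w E A := sum_nonneg (fun ω _ => hw ω)

/-- monotonicity in the set of edges -/
theorem ws_mono_edges {w : Finset α → ℝ} (hw : ∀ ω, 0 ≤ w ω) {E E' : Finset α} (hE : E' ⊆ E)
    (hlat : Lat w E) {A : Finset α → Prop} (hA : Inc A) :
    ws w E' A * ws w E (fun _ => True) ≤ ws w E' (fun _ => True) * ws w E A := by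
  unfold ws
  have h := Finset.four_functions_theorem (f₁ := w) (f₂ := w) (f₃ := w) (f₄ := w) E
    (fun a => hw a) (fun a => hw a) (fun a => hw a) (fun a => hw a)
    (fun s hs t ht => hlat s hs t ht) (𝒜 := fil E' A) (ℬ := fil E (fun _ => True))
    (by intro x hx; rw [mem_fil] at hx; rw [mem_powerset]; exact hx.1.trans hE)
    (by intro x hx; rw [mem_fil] at hx; rw [mem_powerset]; exact hx.1)
  refine h.trans (mul_le_mul (sum_le_sum_of_subset_of_nonneg ?_ (fun _ _ _ => hw _))
    (sum_le_sum_of_subset_of_nonneg ?_ (fun _ _ _ => hw _))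
    (sum_nonneg (fun i _ => hw i)) (sum_nonneg (fun i _ => hw i)))
  · intro x hx
    rw [mem_infs] at hx
    obtain ⟨a, ha, b, hb, rfl⟩ := hx
    rw [mem_fil] at ha ⊢
    exact ⟨inter_subset_left.trans ha.1, trivial⟩
  · intro x hx
    rw [mem_sups] at hx
    obtain ⟨a, ha, b, hb, rfl⟩ := hx
    rw [mem_fil] at ha hb ⊢
    exact ⟨union_subset (ha.1.trans hE) hb.1, hA _ _ subset_union_left ha.2⟩

/-- positive association -/
theorem ws_fkg {w : Finset α → ℝ} (hw : ∀ ω, 0 ≤ w ω) {E : Finset α}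
    (hlat : Lat w E) {A B : Finset α → Prop} (hA : Inc A) (hB : Inc B) :
    ws w E A * ws w E B ≤ ws w E (fun _ => True) * ws w E (fun ω => A ω ∧ B ω) := by
  unfold ws
  have h := Finset.four_functions_theorem (f₁ := w) (f₂ := w) (f₃ := w) (f₄ := w) E
    (fun a => hw a) (fun a => hw a) (fun a => hw a) (fun a => hw a)
    (fun s hs t ht => hlat s hs t ht) (𝒜 := fil E A) (ℬ := fil E B)
    (by intro x hx; rw [mem_fil] at hx; rw [mem_powerset]; exact hx.1)
    (by intro x hx; rw [mem_fil] at hx; rw [mem_powerset]; exact hx.1)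
  refine h.trans (mul_le_mul (sum_le_sum_of_subset_of_nonneg ?_ (fun _ _ _ => hw _))
    (sum_le_sum_of_subset_of_nonneg ?_ (fun _ _ _ => hw _))
    (sum_nonneg (fun i _ => hw i)) (sum_nonneg (fun i _ => hw i)))
  · intro x hx
    rw [mem_infs] at hx
    obtain ⟨a, ha, b, hb, rfl⟩ := hx
    rw [mem_fil] at ha ⊢
    exact ⟨inter_subset_left.trans ha.1, trivial⟩
  · intro x hx
    rw [mem_sups] at hx
    obtain ⟨a, ha, b, hb, rfl⟩ := hx
    rw [mem_fil] at ha hb ⊢
    exact ⟨union_subset ha.1 hb.1, hA _ _ subset_union_left ha.2, hB _ _ subset_union_right hb.2⟩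

/-- the lattice condition from single insertions -/
theorem lat_of_single {w : Finset α → ℝ} (hw : ∀ ω, 0 < w ω) {E : Finset α}
    (h : ∀ a b e, a ⊆ b → b ⊆ E → e ∈ E → e ∉ b → w (insert e a) * w b ≤ w a * w (insert e b)) :
    Lat w E := by
  have key : ∀ D : Finset α, D ⊆ E → ∀ a b, a ⊆ b → b ⊆ E → Disjoint D b →
      w (a ∪ D) * w b ≤ w a * w (b ∪ D) := by
    intro D
    induction D using Finset.induction_on with
    | empty => intro _ a b _ _ _; simp
    | insert e D he ih =>
      intro hD a b hab hb hdis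
      rw [disjoint_insert_left] at hdis
      have h1 := ih (fun x hx => hD (mem_insert_of_mem hx)) a b hab hb hdis.2
      have hDE : D ⊆ E := fun x hx => hD (mem_insert_of_mem hx)
      have h2 := h (a ∪ D) (b ∪ D) e (union_subset_union hab (Subset.refl _))
        (union_subset hb hDE) (hD (mem_insert_self _ _)) (by
          rw [mem_union, not_or]; exact ⟨hdis.1, he⟩)
      rw [union_insert, union_insert]
      -- w(e a D) w(bD) ≤ w(aD) w(e b D),  w(aD) w b ≤ w a w(bD)
      have p1 := hw (b ∪ D)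
      have p2 := hw (a ∪ D)
      have h3 : w (insert e (a ∪ D)) * w b * (w (b ∪ D) * w (a ∪ D))
          ≤ w a * w (insert e (b ∪ D)) * (w (b ∪ D) * w (a ∪ D)) := by
        calc w (insert e (a ∪ D)) * w b * (w (b ∪ D) * w (a ∪ D))
            = (w (insert e (a ∪ D)) * w (b ∪ D)) * (w (a ∪ D) * w b) := by ring
          _ ≤ (w (a ∪ D) * w (insert e (b ∪ D))) * (w a * w (b ∪ D)) :=
              mul_le_mul h2 h1 (mul_nonneg (hw _).le (hw _).le) (mul_nonneg (hw _).le (hw _).le)
          _ = _ := by ring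
      exact le_of_mul_le_mul_right h3 (mul_pos p1 p2)
  intro a ha b hb
  have h1 := key (b \ a) (sdiff_subset.trans hb) (a ∩ b) a inter_subset_left ha
    disjoint_sdiff_self_left
  have e1 : a ∩ b ∪ b \ a = b := by
    ext x; simp only [mem_union, mem_inter, mem_sdiff]; tauto
  have e2 : a ∪ b \ a = a ∪ b := by
    ext x; simp only [mem_union, mem_sdiff]; tauto
  rw [e1, e2] at h1
  linarith

end

/-! ### FK weights -/

variable {q : ℝ}

/-- self-dual FK weight relative to the vertex set `V` -/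
noncomputable def W (q : ℝ) (V : Finset (ℤ × ℤ)) (ω : Finset (Sym2 (ℤ × ℤ))) : ℝ :=
  fkWeight (selfDual q) q V ω

lemma W_pos (hq : 0 < q) (V : Finset (ℤ × ℤ)) (ω : Finset (Sym2 (ℤ × ℤ))) : 0 < W q V ω :=
  weight_pos hq

lemma W_lat (hq : 1 ≤ q) (V : Finset (ℤ × ℤ)) : Lat (W q V) (edgesIn V) := by
  apply lat_of_single (fun ω => W_pos (by linarith) V ω)
  intro a b e hab hb he heb
  have hq0 : 0 < q := by linarith
  have hs1 : 1 ≤ √q := Real.one_le_sqrt.mpr hq
  induction e with
  | _ x y =>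
    obtain ⟨hx, hy, hadj⟩ := mem_edgesIn'.mp he
    have hea : s(x, y) ∉ a := fun h => heb (hab h)
    have pa := W_pos hq0 V a
    have pb := W_pos hq0 V b
    by_cases h1 : (openGraph a).Reachable x y
    · have h2 : (openGraph b).Reachable x y := h1.mono (openGraph_mono hab)
      unfold W
      rw [weight_insert_of_reach hq0 hadj.ne hea h1, weight_insert_of_reach hq0 hadj.ne heb h2]
      apply le_of_eq; ring
    · have e1 := weight_insert_of_not_reach (V := V) hq0 hadj.ne hx hy hea h1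
      have pa' := W_pos hq0 V (insert s(x, y) a)
      have pb' := W_pos hq0 V (insert s(x, y) b)
      by_cases h2 : (openGraph b).Reachable x y
      · have e2 := weight_insert_of_reach (V := V) hq0 hadj.ne heb h2
        unfold W at *
        rw [e1, e2]
        have : 1 ≤ √q * √q := by nlinarith
        nlinarith [mul_pos pa' pb]
      · have e2 := weight_insert_of_not_reach (V := V) hq0 hadj.ne hx hy heb h2
        unfold W at *
        rw [e1, e2]
        apply le_of_eq; ring

/-- changing the vertex set multiplies all weights by a constant -/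
lemma W_change (hq : 0 < q) {V V' : Finset (ℤ × ℤ)} (hV : V ⊆ V') {ω : Finset (Sym2 (ℤ × ℤ))}
    (hω : ω ⊆ edgesIn V) : W q V' ω * W q V ∅ = W q V ω * W q V' ∅ := by
  induction ω using Finset.induction_on with
  | empty => ring
  | insert e ω he ih =>
    have hω' : ω ⊆ edgesIn V := fun x hx => hω (mem_insert_of_mem hx)
    have ih' := ih hω'
    have heE : e ∈ edgesIn V := hω (mem_insert_self _ _)
    induction e with
    | _ x y =>
      obtain ⟨hx, hy, hadj⟩ := mem_edgesIn'.mp heE
      by_cases h1 : (openGraph ω).Reachable x y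
      · unfold W at *
        rw [weight_insert_of_reach hq hadj.ne he h1, weight_insert_of_reach hq hadj.ne he h1]
        linear_combination √q * ih'
      · have e1 := weight_insert_of_not_reach (V := V) hq hadj.ne hx hy he h1
        have e2 := weight_insert_of_not_reach (V := V') hq hadj.ne (hV hx) (hV hy) he h1
        unfold W at *
        rw [e1, e2] at ih'
        have hs : 0 < √q := Real.sqrt_pos.mpr hq
        have : √q * (fkWeight (selfDual q) q V' (insert s(x, y) ω) * fkWeight (selfDual q) q V ∅)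
            = √q * (fkWeight (selfDual q) q V (insert s(x, y) ω) * fkWeight (selfDual q) q V' ∅) := by
          linarith
        exact mul_left_cancel₀ hs.ne' this

/-- probability of an event for the free self-dual measure on `V` -/
noncomputable def P (q : ℝ) (V : Finset (ℤ × ℤ)) (A : Finset (Sym2 (ℤ × ℤ)) → Prop) : ℝ :=
  fkProb (selfDual q) q V ∅ A

lemma configs_empty (V : Finset (ℤ × ℤ)) : configs V ∅ = (edgesIn V).powerset := by
  unfold configs; ext ω; simp

lemma ws_true_pos (hq : 0 < q) (V : Finset (ℤ × ℤ)) (E : Finset (Sym2 (ℤ × ℤ))) :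
    0 < ws (W q V) E (fun _ => True) := by
  unfold ws
  exact sum_pos (fun ω _ => W_pos hq V ω) ⟨∅, by rw [mem_fil]; simp⟩

lemma P_eq (V : Finset (ℤ × ℤ)) (A : Finset (Sym2 (ℤ × ℤ)) → Prop) :
    P q V A = ws (W q V) (edgesIn V) A / ws (W q V) (edgesIn V) (fun _ => True) := by
  classical
  unfold P fkProb ws fil
  rw [configs_empty]
  simp only [filter_true]
  rfl

lemma P_nonneg (hq : 0 < q) (V : Finset (ℤ × ℤ)) (A : Finset (Sym2 (ℤ × ℤ)) → Prop) : 0 ≤ P q V A := by
  rw [P_eq]
  exact div_nonneg (ws_nonneg (fun ω => (W_pos hq V ω).le) _ _) (ws_true_pos hq _ _).le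

lemma P_mono (hq : 0 < q) {V : Finset (ℤ × ℤ)} {A B : Finset (Sym2 (ℤ × ℤ)) → Prop}
    (h : ∀ ω ⊆ edgesIn V, A ω → B ω) : P q V A ≤ P q V B := by
  rw [P_eq, P_eq]
  apply div_le_div_of_nonneg_right _ (ws_true_pos hq _ _).le
  unfold ws
  apply sum_le_sum_of_subset_of_nonneg _ (fun ω _ _ => (W_pos hq V ω).le)
  intro ω hω
  rw [mem_fil] at hω ⊢
  exact ⟨hω.1, h ω hω.1 hω.2⟩

lemma P_congr {V : Finset (ℤ × ℤ)} {A B : Finset (Sym2 (ℤ × ℤ)) → Prop}
    (h : ∀ ω ⊆ edgesIn V, A ω ↔ B ω) : P q V A = P q V B := by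
  rw [P_eq, P_eq, ws_congr h]

lemma P_true (hq : 0 < q) (V : Finset (ℤ × ℤ)) : P q V (fun _ => True) = 1 := by
  rw [P_eq]; exact div_self (ws_true_pos hq _ _).ne'

lemma P_le_one (hq : 0 < q) (V : Finset (ℤ × ℤ)) (A : Finset (Sym2 (ℤ × ℤ)) → Prop) : P q V A ≤ 1 := by
  rw [← P_true hq V]; exact P_mono hq (fun _ _ _ => trivial)

theorem P_fkg (hq : 1 ≤ q) (V : Finset (ℤ × ℤ)) {A B : Finset (Sym2 (ℤ × ℤ)) → Prop}
    (hA : Inc A) (hB : Inc B) : P q V A * P q V B ≤ P q V (fun ω => A ω ∧ B ω) := by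
  have hq0 : 0 < q := by linarith
  have h := ws_fkg (fun ω => (W_pos hq0 V ω).le) (W_lat hq V) hA hB
  have hZ := ws_true_pos hq0 V (edgesIn V)
  rw [P_eq, P_eq, P_eq, div_mul_div_comm, div_le_div_iff₀ (by positivity) hZ]
  nlinarith

/-- ratio of weights for a smaller edge set, seen from a bigger vertex set -/
lemma P_eq_of_subset (hq : 0 < q) {V V' : Finset (ℤ × ℤ)} (hV : V ⊆ V')
    (A : Finset (Sym2 (ℤ × ℤ)) → Prop) :
    P q V A = ws (W q V') (edgesIn V) A / ws (W q V') (edgesIn V) (fun _ => True) := by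
  rw [P_eq]
  have key : ∀ B : Finset (Sym2 (ℤ × ℤ)) → Prop,
      ws (W q V') (edgesIn V) B * W q V ∅ = ws (W q V) (edgesIn V) B * W q V' ∅ := by
    intro B
    unfold ws
    rw [sum_mul, sum_mul]
    apply sum_congr rfl
    intro ω hω
    exact W_change hq hV (mem_fil.mp hω).1
  have p1 := W_pos hq V ∅
  have p2 := W_pos hq V' ∅
  rw [div_eq_div_iff (ws_true_pos hq _ _).ne' (ws_true_pos hq _ _).ne']
  have k1 := key A
  have k2 := key (fun _ => True)
  have : (ws (W q V) (edgesIn V) A * ws (W q V') (edgesIn V) (fun _ => True)) * (W q V ∅ * W q V' ∅)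
      = (ws (W q V') (edgesIn V) A * ws (W q V) (edgesIn V) (fun _ => True)) * (W q V ∅ * W q V' ∅) := by
    calc _ = (ws (W q V) (edgesIn V) A * W q V' ∅) * (ws (W q V') (edgesIn V) (fun _ => True) * W q V ∅) := by ring
      _ = (ws (W q V') (edgesIn V) A * W q V ∅) * (ws (W q V) (edgesIn V) (fun _ => True) * W q V' ∅) := by
          rw [k1, k2]
      _ = _ := by ring
  exact mul_right_cancel₀ (mul_pos p1 p2).ne' this

/-- monotonicity in the domain -/
theorem P_mono_domain (hq : 1 ≤ q) {V V' : Finset (ℤ × ℤ)} (hV : V ⊆ V')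
    {A : Finset (Sym2 (ℤ × ℤ)) → Prop} (hA : Inc A) : P q V A ≤ P q V' A := by
  have hq0 : 0 < q := by linarith
  rw [P_eq_of_subset hq0 hV, P_eq]
  have h := ws_mono_edges (fun ω => (W_pos hq0 V' ω).le) (edgesIn_mono hV) (W_lat hq V') hA
  rw [div_le_div_iff₀ (ws_true_pos hq0 _ _) (ws_true_pos hq0 _ _)]
  linarith

end Pool.Agent.H95.Susc
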