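import Mathlib
import Pool.Agent.H95.Susc.Fkg

/-!
Automorphisms, finite energy and two-point functions for the self-dual random-cluster model.
-/

namespace Pool.Agent.H95.Susc

open Finset Pool.Agent.H95.SumRule Pool.Agent.H95.Perc

set_option linter.unusedSectionVars false

variable {q : ℝ}

lemma reach_act {σ : (ℤ × ℤ) ≃ (ℤ × ℤ)} {ω : Finset (Sym2 (ℤ × ℤ))} {x y : ℤ × ℤ} :
    (openGraph (act σ ω)).Reachable (σ x) (σ y) ↔ (openGraph ω).Reachable x y := by
  let e : openGraph ω ≃g openGraph (act σ ω) :=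
    { toEquiv := σ
      map_rel_iff' := by
        intro a b
        rw [openGraph_adj, openGraph_adj, mem_act]
        simp }
  exact SimpleGraph.Iso.reachable_iff (φ := e)

lemma act_insert (σ : (ℤ × ℤ) ≃ (ℤ × ℤ)) (x y : ℤ × ℤ) (ω : Finset (Sym2 (ℤ × ℤ))) :
    act σ (insert s(x, y) ω) = insert s(σ x, σ y) (act σ ω) := by
  unfold act; rw [image_insert]; rfl

lemma act_injective (σ : (ℤ × ℤ) ≃ (ℤ × ℤ)) : Function.Injective (act σ) :=
  image_injective (Sym2.map.injective σ.injective)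

lemma W_act (hq : 0 < q) {σ : (ℤ × ℤ) ≃ (ℤ × ℤ)} {V : Finset (ℤ × ℤ)}
    {ω : Finset (Sym2 (ℤ × ℤ))} (hω : ω ⊆ edgesIn V) :
    W q (V.image σ) (act σ ω) * W q V ∅ = W q V ω * W q (V.image σ) ∅ := by
  induction ω using Finset.induction_on with
  | empty => unfold act; rw [image_empty]; ring
  | insert e ω he ih =>
    have hω' : ω ⊆ edgesIn V := fun x hx => hω (mem_insert_of_mem hx)
    have ih' := ih hω'
    have heE : e ∈ edgesIn V := hω (mem_insert_self _ _)
    induction e with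
    | _ x y =>
      obtain ⟨hx, hy, hadj⟩ := mem_edgesIn'.mp heE
      have hne : σ x ≠ σ y := fun h => hadj.ne (σ.injective h)
      have he2 : s(σ x, σ y) ∉ act σ ω := fun h => he (mem_act.mp h)
      rw [act_insert]
      by_cases h1 : (openGraph ω).Reachable x y
      · unfold W at *
        rw [weight_insert_of_reach hq hadj.ne he h1,
          weight_insert_of_reach hq hne he2 (reach_act.mpr h1)]
        linear_combination √q * ih'
      · have e1 := weight_insert_of_not_reach (V := V) hq hadj.ne hx hy he h1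
        have e2 := weight_insert_of_not_reach (V := V.image σ) hq hne (mem_image_of_mem _ hx)
          (mem_image_of_mem _ hy) he2 (fun h => h1 (reach_act.mp h))
        unfold W at *
        rw [e1, e2] at ih'
        have hs : 0 < √q := Real.sqrt_pos.mpr hq
        have : √q * (fkWeight (selfDual q) q (V.image σ) (insert s(σ x, σ y) (act σ ω))
              * fkWeight (selfDual q) q V ∅)
            = √q * (fkWeight (selfDual q) q V (insert s(x, y) ω)
              * fkWeight (selfDual q) q (V.image σ) ∅) := by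
          linarith
        exact mul_left_cancel₀ hs.ne' this

lemma fil_act {σ : (ℤ × ℤ) ≃ (ℤ × ℤ)} (E : Finset (Sym2 (ℤ × ℤ)))
    (A : Finset (Sym2 (ℤ × ℤ)) → Prop) :
    fil (act σ E) A = (fil E (fun ω => A (act σ ω))).image (act σ) := by
  ext ω
  rw [mem_fil, mem_image]
  constructor
  · rintro ⟨h1, h2⟩
    obtain ⟨ω', h3, rfl⟩ := subset_image_iff.mp h1
    exact ⟨ω', mem_fil.mpr ⟨h3, h2⟩, rfl⟩
  · rintro ⟨ω', h1, rfl⟩
    obtain ⟨h1, h2⟩ := mem_fil.mp h1
    exact ⟨image_subset_image h1, h2⟩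

/-- invariance under automorphisms -/
theorem P_act (hq : 0 < q) {σ : (ℤ × ℤ) ≃ (ℤ × ℤ)} (hσ : IsAut σ) (V : Finset (ℤ × ℤ))
    (A : Finset (Sym2 (ℤ × ℤ)) → Prop) : P q (V.image σ) A = P q V (fun ω => A (act σ ω)) := by
  rw [P_eq, P_eq]
  have key : ∀ B : Finset (Sym2 (ℤ × ℤ)) → Prop,
      ws (W q (V.image σ)) (edgesIn (V.image σ)) B * W q V ∅
        = ws (W q V) (edgesIn V) (fun ω => B (act σ ω)) * W q (V.image σ) ∅ := by
    intro B
    unfold ws
    rw [edgesIn_image hσ, fil_act, sum_image (fun a _ b _ h => act_injective σ h), sum_mul, sum_mul]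
    apply sum_congr rfl
    intro ω hω
    exact W_act hq (mem_fil.mp hω).1
  have p1 := W_pos hq V ∅
  have p2 := W_pos hq (V.image σ) ∅
  rw [div_eq_div_iff (ws_true_pos hq _ _).ne' (ws_true_pos hq _ _).ne']
  have k1 := key A
  have k2 := key (fun _ => True)
  have : (ws (W q (V.image σ)) (edgesIn (V.image σ)) A * ws (W q V) (edgesIn V) (fun _ => True))
        * (W q V ∅ * W q (V.image σ) ∅)
      = (ws (W q V) (edgesIn V) (fun ω => A (act σ ω))
          * ws (W q (V.image σ)) (edgesIn (V.image σ)) (fun _ => True)) * (W q V ∅ * W q (V.image σ) ∅) := by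
    calc _ = (ws (W q (V.image σ)) (edgesIn (V.image σ)) A * W q V ∅)
          * (ws (W q V) (edgesIn V) (fun _ => True) * W q (V.image σ) ∅) := by ring
      _ = (ws (W q V) (edgesIn V) (fun ω => A (act σ ω)) * W q (V.image σ) ∅)
          * (ws (W q (V.image σ)) (edgesIn (V.image σ)) (fun _ => True) * W q V ∅) := by
          rw [k1, k2]
      _ = _ := by ring
  exact mul_right_cancel₀ (mul_pos p1 p2).ne' this

/-- two-point function -/
noncomputable def G (q : ℝ) (V : Finset (ℤ × ℤ)) (x y : ℤ × ℤ) : ℝ :=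
  P q V (fun ω => (openGraph ω).Reachable x y)

lemma inc_reach (x y : ℤ × ℤ) : Inc (fun ω => (openGraph ω).Reachable x y) :=
  fun _ _ hs h => h.mono (openGraph_mono hs)

lemma G_nonneg (hq : 0 < q) (V : Finset (ℤ × ℤ)) (x y : ℤ × ℤ) : 0 ≤ G q V x y := P_nonneg hq _ _
lemma G_le_one (hq : 0 < q) (V : Finset (ℤ × ℤ)) (x y : ℤ × ℤ) : G q V x y ≤ 1 := P_le_one hq _ _

lemma G_symm (V : Finset (ℤ × ℤ)) (x y : ℤ × ℤ) : G q V x y = G q V y x :=
  P_congr (fun _ _ => ⟨fun h => h.symm, fun h => h.symm⟩)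

lemma G_self (hq : 0 < q) (V : Finset (ℤ × ℤ)) (x : ℤ × ℤ) : G q V x x = 1 := by
  unfold G
  rw [← P_true hq V]
  exact P_congr (fun _ _ => ⟨fun _ => trivial, fun _ => SimpleGraph.Reachable.refl _⟩)

lemma G_mono (hq : 1 ≤ q) {V V' : Finset (ℤ × ℤ)} (hV : V ⊆ V') (x y : ℤ × ℤ) :
    G q V x y ≤ G q V' x y := P_mono_domain hq hV (inc_reach x y)

lemma G_trans (hq : 1 ≤ q) (V : Finset (ℤ × ℤ)) (x y z : ℤ × ℤ) :
    G q V x y * G q V y z ≤ G q V x z := by
  refine (P_fkg hq V (inc_reach x y) (inc_reach y z)).trans (P_mono (by linarith) ?_)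
  intro ω _ h
  exact h.1.trans h.2

lemma G_act (hq : 0 < q) {σ : (ℤ × ℤ) ≃ (ℤ × ℤ)} (hσ : IsAut σ) (V : Finset (ℤ × ℤ)) (x y : ℤ × ℤ) :
    G q (V.image σ) (σ x) (σ y) = G q V x y := by
  unfold G
  rw [P_act hq hσ]
  exact P_congr (fun _ _ => reach_act)

/-- lower bound for the probability that an edge is open -/
noncomputable def ce (q : ℝ) : ℝ := 1 / (1 + √q)

lemma ce_pos (q : ℝ) : 0 < ce q := by unfold ce; positivity

lemma ce_le_one (q : ℝ) : ce q ≤ 1 := by
  unfold ce
  rw [div_le_one (by positivity)]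
  have := Real.sqrt_nonneg q
  linarith

theorem P_edge (hq : 1 ≤ q) {V : Finset (ℤ × ℤ)} {x y : ℤ × ℤ} (he : s(x, y) ∈ edgesIn V) :
    ce q ≤ P q V (fun ω => s(x, y) ∈ ω) := by
  have hq0 : 0 < q := by linarith
  have hs1 : 1 ≤ √q := Real.one_le_sqrt.mpr hq
  obtain ⟨hx, hy, hadj⟩ := mem_edgesIn'.mp he
  rw [P_eq]
  set E := edgesIn V with hE
  have split : ws (W q V) E (fun _ => True)
      = ws (W q V) E (fun ω => s(x, y) ∈ ω) + ws (W q V) E (fun ω => s(x, y) ∉ ω) := by
    unfold ws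
    rw [← sum_union]
    · congr 1
      ext ω
      rw [mem_union, mem_fil, mem_fil, mem_fil]
      tauto
    · rw [disjoint_left]
      intro ω h1 h2
      rw [mem_fil] at h1 h2
      exact h2.2 h1.2
  have hle : ws (W q V) E (fun ω => s(x, y) ∉ ω) ≤ √q * ws (W q V) E (fun ω => s(x, y) ∈ ω) := by
    have h1 : ws (W q V) E (fun ω => s(x, y) ∉ ω)
        ≤ ∑ ω ∈ fil E (fun ω => s(x, y) ∉ ω), √q * W q V (insert s(x, y) ω) := by
      unfold ws
      apply sum_le_sum
      intro ω hω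
      have hω2 := (mem_fil.mp hω).2
      have pp := W_pos hq0 V ω
      by_cases h : (openGraph ω).Reachable x y
      · unfold W at *
        rw [weight_insert_of_reach hq0 hadj.ne hω2 h]
        have : 1 ≤ √q * √q := by nlinarith
        nlinarith
      · unfold W at *
        rw [weight_insert_of_not_reach hq0 hadj.ne hx hy hω2 h]
    refine h1.trans ?_
    rw [← mul_sum]
    apply mul_le_mul_of_nonneg_left _ (by linarith)
    rw [← sum_image (f := W q V) (g := fun ω => insert s(x, y) ω)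
      (s := fil E (fun ω => s(x, y) ∉ ω))]
    · unfold ws
      apply sum_le_sum_of_subset_of_nonneg _ (fun ω _ _ => (W_pos hq0 V ω).le)
      intro ω hω
      rw [mem_image] at hω
      obtain ⟨ω', h1, rfl⟩ := hω
      rw [mem_fil] at h1 ⊢
      exact ⟨insert_subset he h1.1, mem_insert_self _ _⟩
    · intro a ha b hb hab
      have ha2 := (mem_fil.mp ha).2
      have hb2 := (mem_fil.mp hb).2
      rw [← erase_insert ha2, ← erase_insert hb2]
      exact congrArg (fun z => z.erase s(x, y)) hab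
  have hpos := ws_true_pos hq0 V E
  unfold ce
  rw [div_le_div_iff₀ (by linarith) hpos]
  linarith

lemma G_step (hq : 1 ≤ q) {V : Finset (ℤ × ℤ)} {x y : ℤ × ℤ} (hx : x ∈ V) (hy : y ∈ V)
    (hadj : Z2.Adj x y) : ce q ≤ G q V x y := by
  refine (P_edge hq (mem_edgesIn'.mpr ⟨hx, hy, hadj⟩)).trans (P_mono (by linarith) ?_)
  intro ω _ h
  exact SimpleGraph.Adj.reachable (openGraph_adj.mpr ⟨h, hadj.ne⟩)

/-- chains of edges -/
lemma G_chain (hq : 1 ≤ q) {V : Finset (ℤ × ℤ)} (a j : ℤ) (k : ℕ)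
    (h : ∀ i : ℤ, a ≤ i → i ≤ a + k → (i, j) ∈ V) : ce q ^ k ≤ G q V (a, j) (a + k, j) := by
  induction k with
  | zero => simp [G_self (show (0 : ℝ) < q by linarith)]
  | succ k ih =>
    have h1 := ih (fun i h1 h2 => h i h1 (by push_cast; omega))
    have h2 : ce q ≤ G q V (a + k, j) (a + (k + 1 : ℕ), j) := by
      apply G_step hq (h _ (by omega) (by push_cast; omega)) (h _ (by push_cast; omega) (by push_cast; omega))
      simp [Z2, IsUnit2]
    rw [pow_succ]
    exact (mul_le_mul h1 h2 (ce_pos q).le (G_nonneg (by linarith) _ _ _)).trans (G_trans hq V _ _ _)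

end Pool.Agent.H95.Susc
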