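import Mathlib
import Pool.Agent.H95.Susc.Basic
import Pool.Agent.H95.SumRule.Final

/-!
Exact sums of boundary two-point functions in the quarter-plane.
-/

namespace Pool.Agent.H95.Susc

open Finset Pool.Agent.H95.SumRule Pool.Agent.H95.Perc Filter Topology

set_option linter.unusedSectionVars false

variable {q : ℝ}

lemma domain_rect (m n : ℕ) : domain m (fun _ => n) = rect 0 m 0 n := by
  ext v
  rw [mem_domain, mem_rect]
  simp [InV]

lemma touchProb_eq (m M n : ℕ) (x : ℤ × ℤ) :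
    touchProb q M (fun _ => n) m m x = G q (rect 0 M 0 n) (m, 0) x := by
  unfold touchProb G P
  have h : bottomArc (m : ℤ) m = ∅ := by unfold bottomArc; simp
  rw [h, domain_rect]

/-- sum over the top side -/
noncomputable def Ns (q : ℝ) (m M n : ℕ) : ℝ := ∑ i ∈ Icc (0 : ℤ) M, G q (rect 0 M 0 n) (m, 0) (i, n)
/-- sum over the right side -/
noncomputable def Es (q : ℝ) (m M n : ℕ) : ℝ := ∑ j ∈ Icc (0 : ℤ) n, G q (rect 0 M 0 n) (m, 0) (M, j)
/-- sum over the bottom side to the right of the source -/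
noncomputable def Bp (q : ℝ) (m M n : ℕ) : ℝ :=
  ∑ k ∈ range (M - m), G q (rect 0 M 0 n) (m, 0) ((m + 1 + k : ℕ), 0)
/-- sum over the bottom side to the left of the source -/
noncomputable def Bm (q : ℝ) (m M n : ℕ) : ℝ :=
  ∑ i ∈ range m, G q (rect 0 M 0 n) (m, 0) ((i : ℕ), 0)
/-- sum over the left side, source at the corner -/
noncomputable def Ls (q : ℝ) (M n : ℕ) : ℝ :=
  ∑ k ∈ range n, G q (rect 0 M 0 n) (0, 0) (0, ((1 + k : ℕ) : ℤ))

lemma sum_Ioc_eq (f : ℤ → ℝ) {m M : ℕ} :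
    ∑ i ∈ Ioc (m : ℤ) M, f i = ∑ k ∈ range (M - m), f ((m + 1 + k : ℕ) : ℤ) := by
  symm
  apply sum_bij (fun k _ => ((m + 1 + k : ℕ) : ℤ))
  · intro k hk; rw [mem_range] at hk; rw [mem_Ioc]; push_cast; omega
  · intro a _ b _ h; push_cast at h; omega
  · intro i hi
    rw [mem_Ioc] at hi
    exact ⟨(i - m - 1).toNat, by rw [mem_range]; omega, by push_cast; omega⟩
  · intro k _; rfl

lemma sum_Ico_eq (f : ℤ → ℝ) (m : ℕ) : ∑ i ∈ Ico (0 : ℤ) m, f i = ∑ k ∈ range m, f (k : ℤ) := by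
  symm
  refine sum_bij (fun (k : ℕ) _ => (k : ℤ)) ?_ ?_ ?_ ?_
  · intro k hk; rw [mem_range] at hk; rw [mem_Ico]; omega
  · intro a _ b _ h; omega
  · intro i hi
    rw [mem_Ico] at hi
    exact ⟨i.toNat, by rw [mem_range]; omega, by omega⟩
  · intro k _; rfl

theorem rule1 (hq : 0 < q) {m M : ℕ} (n : ℕ) (hm : m ≤ M) :
    Ns q m M n + √q * Es q m M n + (q - 1) * Bp q m M n = 1 + √q + Bm q m M n := by
  have h := sum_rule_main q hq M (fun _ => n) m m (by omega) le_rfl (by exact_mod_cast hm)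
  simp only [touchProb_eq, Ico_self, sum_empty, add_zero] at h
  have hs : (domain M (fun _ => n)).filter (fun v => v + (1, 0) ∉ domain M (fun _ => n))
      = (Icc (0 : ℤ) n).image (fun j => ((M : ℤ), j)) := by
    ext ⟨a, b⟩
    rw [mem_filter, domain_rect, mem_rect, mem_rect, mem_image]
    simp only [mem_Icc, Prod.mk_add_mk, Prod.mk.injEq]
    constructor
    · rintro ⟨h1, h2⟩
      exact ⟨b, by omega, by omega, rfl⟩
    · rintro ⟨j, h1, h2, h3⟩
      omega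
  rw [hs, sum_image (by intro x _ y _ h; exact congrArg Prod.snd h), sum_Ioc_eq, sum_Ico_eq] at h
  unfold Ns Es Bp Bm
  exact h

lemma G_diag (hq : 0 < q) (M n : ℕ) (x y : ℤ × ℤ) :
    G q (rect 0 M 0 n) x y = G q (rect 0 n 0 M) (x.2, x.1) (y.2, y.1) := by
  rw [← rect_diag 0 (n : ℤ) 0 M]
  exact G_act hq isAut_diag (rect 0 (n : ℤ) 0 M) (x.2, x.1) (y.2, y.1)

theorem rule2 (hq : 0 < q) (M n : ℕ) :
    Es q 0 M n + √q * Ns q 0 M n + (q - 1) * Ls q M n = 1 + √q := by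
  have h := rule1 hq (m := 0) (M := n) M (Nat.zero_le _)
  have e1 : Ns q 0 n M = Es q 0 M n := by
    unfold Ns Es
    apply sum_congr rfl
    intro i _
    exact G_diag hq n M _ _
  have e2 : Es q 0 n M = Ns q 0 M n := by
    unfold Ns Es
    apply sum_congr rfl
    intro i _
    exact G_diag hq n M _ _
  have e3 : Bp q 0 n M = Ls q M n := by
    unfold Bp Ls
    rw [Nat.sub_zero]
    apply sum_congr rfl
    intro k _
    have := G_diag hq n M (((0 : ℕ) : ℤ), 0) (((0 + 1 + k : ℕ) : ℤ), 0)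
    rw [this]
    simp only [Nat.cast_zero, zero_add]
  have e4 : Bm q 0 n M = 0 := by unfold Bm; simp
  rw [e1, e2, e3, e4] at h
  linarith

lemma Ns_nonneg (hq : 0 < q) (m M n : ℕ) : 0 ≤ Ns q m M n := sum_nonneg (fun _ _ => G_nonneg hq _ _ _)
lemma Es_nonneg (hq : 0 < q) (m M n : ℕ) : 0 ≤ Es q m M n := sum_nonneg (fun _ _ => G_nonneg hq _ _ _)

/-- infinite-volume two-point function of the quarter-plane -/
noncomputable def GQ (q : ℝ) (x y : ℤ × ℤ) : ℝ := ⨆ N : ℕ, G q (rect 0 N 0 N) x y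

lemma bdd_G (hq : 0 < q) (x y : ℤ × ℤ) : BddAbove (Set.range fun N : ℕ => G q (rect 0 N 0 N) x y) :=
  ⟨1, by rintro _ ⟨N, rfl⟩; exact G_le_one hq _ _ _⟩

lemma mono_G (hq : 1 ≤ q) (x y : ℤ × ℤ) : Monotone fun N : ℕ => G q (rect 0 N 0 N) x y := by
  intro N N' h
  exact G_mono hq (rect_mono le_rfl (by exact_mod_cast h) le_rfl (by exact_mod_cast h)) x y

lemma tendsto_G (hq : 1 ≤ q) (x y : ℤ × ℤ) :
    Tendsto (fun N : ℕ => G q (rect 0 N 0 N) x y) atTop (𝓝 (GQ q x y)) :=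
  tendsto_atTop_ciSup (mono_G hq x y) (bdd_G (by linarith) x y)

lemma G_le_GQ (hq : 1 ≤ q) (M n : ℕ) (x y : ℤ × ℤ) : G q (rect 0 M 0 n) x y ≤ GQ q x y := by
  refine (G_mono hq (V' := rect 0 ((max M n : ℕ) : ℤ) 0 ((max M n : ℕ) : ℤ)) ?_ x y).trans
    (le_ciSup (bdd_G (by linarith) x y) (max M n))
  exact rect_mono le_rfl (by push_cast; exact le_max_left _ _) le_rfl
    (by push_cast; exact le_max_right _ _)

lemma GQ_nonneg (hq : 1 ≤ q) (x y : ℤ × ℤ) : 0 ≤ GQ q x y :=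
  (G_nonneg (by linarith) (rect 0 (0 : ℕ) 0 (0 : ℕ)) x y).trans (G_le_GQ hq 0 0 x y)

lemma GQ_diag (hq : 0 < q) (x y : ℤ × ℤ) : GQ q x y = GQ q (x.2, x.1) (y.2, y.1) := by
  unfold GQ
  congr 1
  ext N
  exact G_diag hq N N x y

/-- the value of the sum -/
noncomputable def cs (q : ℝ) : ℝ := 1 + √q

lemma Bm_le (hq : 1 ≤ q) (m M n : ℕ) :
    Bm q m M n ≤ ∑ i ∈ range m, GQ q (m, 0) ((i : ℕ), 0) :=
  sum_le_sum (fun _ _ => G_le_GQ hq _ _ _ _)

lemma Bp_le (hq : 1 < q) {m M : ℕ} (n : ℕ) (hm : m ≤ M) :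
    Bp q m M n ≤ (1 + √q + ∑ i ∈ range m, GQ q (m, 0) ((i : ℕ), 0)) / (q - 1) := by
  rw [le_div_iff₀ (by linarith)]
  have h := rule1 (by linarith : (0 : ℝ) < q) n hm
  have h1 := Ns_nonneg (by linarith : (0 : ℝ) < q) m M n
  have h2 := mul_nonneg (Real.sqrt_nonneg q) (Es_nonneg (by linarith : (0 : ℝ) < q) m M n)
  have h3 := Bm_le (by linarith : 1 ≤ q) m M n
  linarith

/-- the terms of the series -/
noncomputable def term (q : ℝ) (m k : ℕ) : ℝ := GQ q (m, 0) ((m + 1 + k : ℕ), 0)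

lemma term_nonneg (hq : 1 ≤ q) (m k : ℕ) : 0 ≤ term q m k := GQ_nonneg hq _ _

lemma partial_le (hq : 1 < q) (m K : ℕ) :
    ∑ k ∈ range K, term q m k ≤ (1 + √q + ∑ i ∈ range m, GQ q (m, 0) ((i : ℕ), 0)) / (q - 1) := by
  have hq1 : 1 ≤ q := by linarith
  have ht : Tendsto (fun N : ℕ => ∑ k ∈ range K, G q (rect 0 N 0 N) (m, 0) ((m + 1 + k : ℕ), 0)) atTop
      (𝓝 (∑ k ∈ range K, term q m k)) := tendsto_finsetSum _ (fun k _ => tendsto_G hq1 _ _)
  apply le_of_tendsto ht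
  filter_upwards [eventually_ge_atTop (m + K)] with N hN
  refine le_trans ?_ (Bp_le hq N (show m ≤ N by omega))
  unfold Bp
  apply sum_le_sum_of_subset_of_nonneg
  · intro k hk; rw [mem_range] at hk ⊢; omega
  · intro k _ _; exact G_nonneg (by linarith) _ _ _

lemma summable_term (hq : 1 < q) (m : ℕ) : Summable (term q m) :=
  summable_of_sum_range_le (fun k => term_nonneg (by linarith) m k) (fun K => partial_le hq m K)

/-- the sum over the boundary from the corner -/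
noncomputable def beta (q : ℝ) : ℝ := ∑' k, term q 0 k

lemma Ls_le (hq : 1 < q) (M n : ℕ) : Ls q M n ≤ beta q := by
  have hq1 : 1 ≤ q := by linarith
  refine le_trans ?_ ((summable_term hq 0).sum_le_tsum (range n) (fun k _ => term_nonneg hq1 0 k))
  unfold Ls
  apply sum_le_sum
  intro k _
  refine (G_le_GQ hq1 M n _ _).trans ?_
  unfold term
  rw [GQ_diag (by linarith)]
  simp only [Nat.cast_zero, zero_add]
  exact le_rfl

lemma Bp_lower (hq : 1 < q) (ε : ℝ) (hε : 0 < ε) :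
    ∃ M0 : ℕ, ∀ M n : ℕ, M0 ≤ M → M ≤ n → beta q - ε ≤ Bp q 0 M n := by
  have hq1 : 1 ≤ q := by linarith
  have h1 := (summable_term hq 0).hasSum.tendsto_sum_nat
  obtain ⟨K, hK⟩ := (h1.eventually_const_le (show beta q - ε / 2 < ∑' k, term q 0 k by
    unfold beta; linarith)).exists
  have ht : Tendsto (fun N : ℕ => ∑ k ∈ range K, G q (rect 0 N 0 N) (0, 0) ((0 + 1 + k : ℕ), 0)) atTop
      (𝓝 (∑ k ∈ range K, term q 0 k)) := tendsto_finsetSum _ (fun k _ => by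
        have := tendsto_G hq1 (0, 0) (((0 + 1 + k : ℕ) : ℤ), 0)
        unfold term
        simpa using this)
  obtain ⟨N1, hN1⟩ := eventually_atTop.mp (ht.eventually_const_le
    (show ∑ k ∈ range K, term q 0 k - ε / 2 < ∑ k ∈ range K, term q 0 k by linarith))
  refine ⟨max K N1, fun M n hM hn => ?_⟩
  have h2 := hN1 M ((le_max_right _ _).trans hM)
  have hKM : K ≤ M := (le_max_left _ _).trans hM
  have h3 : ∑ k ∈ range K, G q (rect 0 M 0 M) (0, 0) ((0 + 1 + k : ℕ), 0) ≤ Bp q 0 M n := by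
    unfold Bp
    rw [Nat.sub_zero]
    calc ∑ k ∈ range K, G q (rect 0 M 0 M) (0, 0) ((0 + 1 + k : ℕ), 0)
        ≤ ∑ k ∈ range K, G q (rect 0 M 0 n) (0, 0) ((0 + 1 + k : ℕ), 0) :=
          sum_le_sum (fun k _ => G_mono hq1 (rect_mono le_rfl le_rfl le_rfl (by exact_mod_cast hn)) _ _)
      _ ≤ ∑ k ∈ range M, G q (rect 0 M 0 n) (0, 0) ((0 + 1 + k : ℕ), 0) := by
          apply sum_le_sum_of_subset_of_nonneg
          · intro k hk; rw [mem_range] at hk ⊢; omega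
          · intro k _ _; exact G_nonneg (by linarith) _ _ _
      _ = _ := by simp
  linarith

/-- the top side is negligible in a long strip -/
lemma Ns_small (hq : 1 < q) (M : ℕ) (ε : ℝ) (hε : 0 < ε) :
    ∃ n0 : ℕ, ∀ n, n0 ≤ n → Ns q 0 M n ≤ ε := by
  have hq1 : 1 ≤ q := by linarith
  have hq0 : 0 < q := by linarith
  have hb : ∀ n : ℕ, Ns q 0 M (n + 1) ≤ (M + 1) * ((ce q ^ M)⁻¹ * term q 0 n) := by
    intro n
    unfold Ns
    have h1 : ∀ i ∈ Icc (0 : ℤ) M, G q (rect 0 M 0 (n + 1 : ℕ)) (((0 : ℕ) : ℤ), 0) (i, ((n + 1 : ℕ) : ℤ))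
        ≤ (ce q ^ M)⁻¹ * term q 0 n := by
      intro i hi
      rw [mem_Icc] at hi
      obtain ⟨k, rfl⟩ : ∃ k : ℕ, i = k := ⟨i.toNat, by omega⟩
      have hkM : k ≤ M := by omega
      have hc := G_chain hq1 (V := rect 0 M 0 (n + 1 : ℕ)) 0 ((n + 1 : ℕ) : ℤ) k (by
        intro i h1 h2; rw [mem_rect]; simp only; omega)
      rw [zero_add] at hc
      have h2 := G_trans hq1 (rect 0 M 0 (n + 1 : ℕ)) (0, 0) ((k : ℤ), ((n + 1 : ℕ) : ℤ))
        (0, ((n + 1 : ℕ) : ℤ))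
      have h3 : G q (rect 0 M 0 (n + 1 : ℕ)) (0, 0) (0, ((n + 1 : ℕ) : ℤ)) ≤ term q 0 n := by
        refine (G_le_GQ hq1 _ _ _ _).trans ?_
        unfold term
        rw [GQ_diag hq0]
        simp only [Nat.cast_zero, zero_add, add_comm 1 n]
        exact le_rfl
      have h4 : ce q ^ M ≤ ce q ^ k := pow_le_pow_of_le_one (ce_pos q).le (ce_le_one q) hkM
      have h5 : ce q ^ M ≤ G q (rect 0 M 0 (n + 1 : ℕ)) ((k : ℤ), ((n + 1 : ℕ) : ℤ))
          (0, ((n + 1 : ℕ) : ℤ)) := by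
        rw [G_symm]; exact h4.trans hc
      have hp : 0 < ce q ^ M := pow_pos (ce_pos q) M
      rw [le_inv_mul_iff₀ hp]
      have h6 : ce q ^ M * G q (rect 0 M 0 (n + 1 : ℕ)) (0, 0) ((k : ℤ), ((n + 1 : ℕ) : ℤ))
          ≤ G q (rect 0 M 0 (n + 1 : ℕ)) (0, 0) ((k : ℤ), ((n + 1 : ℕ) : ℤ))
            * G q (rect 0 M 0 (n + 1 : ℕ)) ((k : ℤ), ((n + 1 : ℕ) : ℤ)) (0, ((n + 1 : ℕ) : ℤ)) := by
        rw [mul_comm]
        exact mul_le_mul_of_nonneg_left h5 (G_nonneg hq0 _ _ _)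
      exact (h6.trans h2).trans h3
    refine (sum_le_sum h1).trans ?_
    rw [sum_const, Int.card_Icc, nsmul_eq_mul]
    have : (((M : ℤ) + 1 - 0).toNat : ℝ) = M + 1 := by
      have : ((M : ℤ) + 1 - 0).toNat = M + 1 := by omega
      rw [this]; push_cast; ring
    rw [this]
  have ht : Tendsto (fun n => ((M : ℝ) + 1) * ((ce q ^ M)⁻¹ * term q 0 n)) atTop (𝓝 0) := by
    have h1 := (summable_term hq 0).tendsto_atTop_zero
    have h2 := (h1.const_mul (ce q ^ M)⁻¹).const_mul ((M : ℝ) + 1)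
    simpa using h2
  obtain ⟨n1, hn1⟩ := eventually_atTop.mp (ht.eventually_le_const hε)
  refine ⟨n1 + 1, fun n hn => ?_⟩
  obtain ⟨n', rfl⟩ : ∃ n', n = n' + 1 := ⟨n - 1, by omega⟩
  exact (hb n').trans (hn1 n' (by omega))

/-- far contributions vanish, source at the corner -/
theorem far_small (hq : 1 < q) (ε : ℝ) (hε : 0 < ε) :
    ∃ M0 : ℕ, ∀ M, M0 ≤ M → ∃ n0 : ℕ, ∀ n, n0 ≤ n → Ns q 0 M n + √q * Es q 0 M n ≤ ε := by
  have hq1 : 1 ≤ q := by linarith
  have hq0 : 0 < q := by linarith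
  have hs : 1 < √q := by
    rw [← Real.sqrt_one]; exact Real.sqrt_lt_sqrt (by norm_num) hq
  have hsq : √q * √q = q := Real.mul_self_sqrt hq0.le
  set A : ℝ := 1 + √q with hA
  have hApos : 0 < A := by linarith
  -- ε1 for beta, ε2 for N
  obtain ⟨M0, hM0⟩ := Bp_lower hq (ε / (2 * √q * A)) (by positivity)
  refine ⟨M0, fun M hM => ?_⟩
  obtain ⟨n0, hn0⟩ := Ns_small hq M (ε / (2 * A)) (by positivity)
  refine ⟨max n0 M, fun n hn => ?_⟩
  have h1 := hn0 n ((le_max_left _ _).trans hn)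
  have h2 := hM0 M n hM ((le_max_right _ _).trans hn)
  have h3 := Ls_le hq M n
  have r1 := rule1 hq0 (m := 0) (M := M) n (Nat.zero_le _)
  have r2 := rule2 hq0 M n
  have r0 : Bm q 0 M n = 0 := by unfold Bm; simp
  rw [r0] at r1
  -- Es - Ns = (√q + 1)(Ls - Bp)
  have h4 : Es q 0 M n - Ns q 0 M n = A * (Ls q M n - Bp q 0 M n) := by
    have h5 : (√q - 1) * (Es q 0 M n - Ns q 0 M n) = (√q - 1) * (A * (Ls q M n - Bp q 0 M n)) := by
      rw [hA]
      linear_combination r1 - r2 + (Ls q M n - Bp q 0 M n) * (-hsq)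
    exact mul_left_cancel₀ (by linarith : √q - 1 ≠ 0) h5
  have h6 : Ls q M n - Bp q 0 M n ≤ ε / (2 * √q * A) := by linarith
  have h7 : A * (Ls q M n - Bp q 0 M n) ≤ A * (ε / (2 * √q * A)) :=
    mul_le_mul_of_nonneg_left h6 hApos.le
  have h8 : √q * (A * (ε / (2 * √q * A))) = ε / 2 := by field_simp
  have h9 : A * (ε / (2 * A)) = ε / 2 := by field_simp
  have h10 : √q * Es q 0 M n ≤ √q * Ns q 0 M n + ε / 2 := by
    have : Es q 0 M n ≤ Ns q 0 M n + A * (ε / (2 * √q * A)) := by linarith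
    calc √q * Es q 0 M n ≤ √q * (Ns q 0 M n + A * (ε / (2 * √q * A))) :=
          mul_le_mul_of_nonneg_left this (by linarith)
      _ = _ := by rw [mul_add, h8]
  have h11 : A * Ns q 0 M n ≤ A * (ε / (2 * A)) := mul_le_mul_of_nonneg_left h1 hApos.le
  rw [h9] at h11
  have h12 : A * Ns q 0 M n = Ns q 0 M n + √q * Ns q 0 M n := by rw [hA]; ring
  linarith

/-- comparison with the corner source -/
lemma src_le (hq : 1 ≤ q) {m M : ℕ} (n : ℕ) (hm : m ≤ M) (x : ℤ × ℤ) :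
    G q (rect 0 M 0 n) (m, 0) x ≤ (ce q ^ m)⁻¹ * G q (rect 0 M 0 n) (0, 0) x := by
  have hp : 0 < ce q ^ m := pow_pos (ce_pos q) m
  rw [le_inv_mul_iff₀ hp]
  have hc := G_chain hq (V := rect 0 M 0 n) 0 0 m (by
    intro i h1 h2; rw [mem_rect]; simp only; omega)
  rw [zero_add] at hc
  exact (mul_le_mul_of_nonneg_right hc (G_nonneg (by linarith) _ _ _)).trans (G_trans hq _ _ _ _)

theorem far_small' (hq : 1 < q) (m : ℕ) (ε : ℝ) (hε : 0 < ε) :
    ∃ M0 : ℕ, ∀ M, M0 ≤ M → ∃ n0 : ℕ, ∀ n, n0 ≤ n → Ns q m M n + √q * Es q m M n ≤ ε := by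
  have hq1 : 1 ≤ q := by linarith
  have hp : 0 < ce q ^ m := pow_pos (ce_pos q) m
  obtain ⟨M0, hM0⟩ := far_small hq (ce q ^ m * ε) (by positivity)
  refine ⟨max M0 m, fun M hM => ?_⟩
  obtain ⟨n0, hn0⟩ := hM0 M ((le_max_left _ _).trans hM)
  refine ⟨n0, fun n hn => ?_⟩
  have h := hn0 n hn
  have hm : m ≤ M := (le_max_right _ _).trans hM
  have h1 : Ns q m M n ≤ (ce q ^ m)⁻¹ * Ns q 0 M n := by
    unfold Ns
    rw [mul_sum]
    exact sum_le_sum (fun i _ => by simpa using src_le hq1 n hm _)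
  have h2 : Es q m M n ≤ (ce q ^ m)⁻¹ * Es q 0 M n := by
    unfold Es
    rw [mul_sum]
    exact sum_le_sum (fun i _ => by simpa using src_le hq1 n hm _)
  have h3 : √q * Es q m M n ≤ √q * ((ce q ^ m)⁻¹ * Es q 0 M n) :=
    mul_le_mul_of_nonneg_left h2 (Real.sqrt_nonneg _)
  have h4 : (ce q ^ m)⁻¹ * (Ns q 0 M n + √q * Es q 0 M n) ≤ (ce q ^ m)⁻¹ * (ce q ^ m * ε) :=
    mul_le_mul_of_nonneg_left h (by positivity)
  rw [inv_mul_cancel_left₀ hp.ne'] at h4
  calc Ns q m M n + √q * Es q m M n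
      ≤ (ce q ^ m)⁻¹ * Ns q 0 M n + √q * ((ce q ^ m)⁻¹ * Es q 0 M n) := add_le_add h1 h3
    _ = (ce q ^ m)⁻¹ * (Ns q 0 M n + √q * Es q 0 M n) := by ring
    _ ≤ ε := h4

lemma Bp_le_tsum (hq : 1 < q) (m M n : ℕ) : Bp q m M n ≤ ∑' k, term q m k := by
  have hq1 : 1 ≤ q := by linarith
  refine le_trans ?_ ((summable_term hq m).sum_le_tsum (range (M - m)) (fun k _ => term_nonneg hq1 m k))
  unfold Bp
  exact sum_le_sum (fun k _ => G_le_GQ hq1 _ _ _ _)

/-- exact sums in the quarter-plane -/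
theorem quarter_sum (hq : 1 < q) (m : ℕ) :
    (q - 1) * ∑' k, term q m k = 1 + √q + ∑ i ∈ range m, GQ q (m, 0) ((i : ℕ), 0) := by
  have hq1 : 1 ≤ q := by linarith
  have hq0 : 0 < q := by linarith
  have hqp : 0 < q - 1 := by linarith
  apply le_antisymm
  · have h := (summable_term hq m).tsum_le_of_sum_range_le (fun K => partial_le hq m K)
    rw [le_div_iff₀ hqp] at h
    linarith
  · apply le_of_forall_pos_le_add
    intro ε hε
    obtain ⟨M0, hM0⟩ := far_small' hq m (ε / 2) (by positivity)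
    have ht : Tendsto (fun N : ℕ => Bm q m N N) atTop (𝓝 (∑ i ∈ range m, GQ q (m, 0) ((i : ℕ), 0))) :=
      tendsto_finsetSum _ (fun i _ => tendsto_G hq1 _ _)
    obtain ⟨M1, hM1⟩ := eventually_atTop.mp (ht.eventually_const_le
      (show ∑ i ∈ range m, GQ q (m, 0) ((i : ℕ), 0) - ε / 2
        < ∑ i ∈ range m, GQ q (m, 0) ((i : ℕ), 0) by linarith))
    set M := max m (max M0 M1) with hM
    have hmM : m ≤ M := le_max_left _ _
    obtain ⟨n0, hn0⟩ := hM0 M ((le_max_left _ _).trans (le_max_right _ _))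
    set n := max n0 M with hn
    have h1 := hn0 n (le_max_left _ _)
    have h2 := hM1 M ((le_max_right _ _).trans (le_max_right _ _))
    have h3 : Bm q m M M ≤ Bm q m M n := by
      unfold Bm
      apply sum_le_sum
      intro i _
      exact G_mono hq1 (rect_mono le_rfl le_rfl le_rfl (by exact_mod_cast le_max_right _ _)) _ _
    have h4 := rule1 hq0 n hmM
    have h5 := mul_le_mul_of_nonneg_left (Bp_le_tsum hq m M n) hqp.le
    linarith

end Pool.Agent.H95.Susc
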