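import Mathlib
import Pool.Agent.H95.SumRule.Defs

/-!
Boundary two-point functions of the self-dual FK model with free boundary conditions in boxes that
exhaust the quarter-plane and the half-plane.
-/

namespace Pool.Agent.H95.Susc

open Pool.Agent.H95.SumRule

/-- Probability that `(i, 0)` and `(j, 0)` are connected in the square `{0, …, N}²`, for the FK
model at its self-dual point with free boundary conditions. -/
noncomputable def quarterTwoPoint (q : ℝ) (N i j : ℕ) : ℝ :=
  fkProb (selfDual q) q (domain N fun _ => N) ∅
    fun ω => (openGraph ω).Reachable ((i : ℤ), 0) ((j : ℤ), 0)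

/-- Probability that the middle `(N, 0)` of the bottom side and the vertex `(N + k, 0)` are
connected in the rectangle `{0, …, 2 N} × {0, …, N}`, for the FK model at its self-dual point with
free boundary conditions. -/
noncomputable def halfTwoPoint (q : ℝ) (N k : ℕ) : ℝ :=
  fkProb (selfDual q) q (domain (2 * N) fun _ => N) ∅
    fun ω => (openGraph ω).Reachable ((N : ℤ), 0) (((N + k : ℕ) : ℤ), 0)

end Pool.Agent.H95.Susc
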