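import Mathlib
import Pool.Agent.H95.Susc.Quarter
import Pool.Agent.H95.Perc.Final

/-!
Exact value of the boundary susceptibility of the half-plane.
-/

namespace Pool.Agent.H95.Susc

open Finset Pool.Agent.H95.SumRule Pool.Agent.H95.Perc Filter Topology

set_option linter.unusedSectionVars false

variable {q : ℝ}

lemma G_trans_act (hq : 0 < q) (a : ℤ) (x0 x1 y0 y1 : ℤ) (x y : ℤ × ℤ) :
    G q (rect (x0 + a) (x1 + a) y0 y1) (x.1 + a, x.2) (y.1 + a, y.2) = G q (rect x0 x1 y0 y1) x y := by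
  have h := G_act hq (isAut_trans a 0) (rect x0 x1 y0 y1) x y
  rw [rect_trans] at h
  simp only [Perc.trans, Equiv.coe_fn_mk, add_zero] at h
  exact h

/-- infinite-volume boundary two-point function of the half-plane -/
noncomputable def GH (q : ℝ) (k : ℕ) : ℝ :=
  ⨆ N : ℕ, G q (rect 0 ((2 * N : ℕ) : ℤ) 0 N) ((N : ℤ), 0) (((N + (k + 1) : ℕ) : ℤ), 0)

lemma bdd_GH (hq : 0 < q) (k : ℕ) : BddAbove (Set.range fun N : ℕ =>
    G q (rect 0 ((2 * N : ℕ) : ℤ) 0 N) ((N : ℤ), 0) (((N + (k + 1) : ℕ) : ℤ), 0)) :=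
  ⟨1, by rintro _ ⟨N, rfl⟩; exact G_le_one hq _ _ _⟩

/-- shift of a box into a bigger half-plane box -/
lemma G_le_half (hq : 1 ≤ q) (k a b n : ℕ) {N : ℕ} (ha : a ≤ N) (hb : b ≤ N) (hn : n ≤ N) :
    G q (rect 0 ((a + b : ℕ) : ℤ) 0 n) ((a : ℤ), 0) (((a + (k + 1) : ℕ) : ℤ), 0)
      ≤ G q (rect 0 ((2 * N : ℕ) : ℤ) 0 N) ((N : ℤ), 0) (((N + (k + 1) : ℕ) : ℤ), 0) := by
  have h := G_trans_act (show 0 < q by linarith) ((N : ℤ) - a) 0 ((a + b : ℕ) : ℤ) 0 n ((a : ℤ), 0)
    (((a + (k + 1) : ℕ) : ℤ), 0)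
  rw [← h]
  simp only
  have e1 : (a : ℤ) + ((N : ℤ) - a) = N := by ring
  have e2 : ((a + (k + 1) : ℕ) : ℤ) + ((N : ℤ) - a) = ((N + (k + 1) : ℕ) : ℤ) := by push_cast; ring
  rw [e1, e2]
  apply G_mono hq
  apply rect_mono <;> push_cast <;> omega

lemma mono_GH (hq : 1 ≤ q) (k : ℕ) : Monotone fun N : ℕ =>
    G q (rect 0 ((2 * N : ℕ) : ℤ) 0 N) ((N : ℤ), 0) (((N + (k + 1) : ℕ) : ℤ), 0) := by
  intro N N' h
  have := G_le_half hq k N N N (N := N') h h h
  rwa [← two_mul] at this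

lemma tendsto_GH (hq : 1 ≤ q) (k : ℕ) : Tendsto (fun N : ℕ =>
    G q (rect 0 ((2 * N : ℕ) : ℤ) 0 N) ((N : ℤ), 0) (((N + (k + 1) : ℕ) : ℤ), 0)) atTop
      (𝓝 (GH q k)) :=
  tendsto_atTop_ciSup (mono_GH hq k) (bdd_GH (by linarith) k)

lemma GH_nonneg (hq : 1 ≤ q) (k : ℕ) : 0 ≤ GH q k :=
  (G_nonneg (by linarith) _ _ _).trans (le_ciSup (bdd_GH (by linarith) k) 0)

/-- the quarter-plane function increases with the distance of the pair to the corner -/
lemma term_mono (hq : 1 ≤ q) (k : ℕ) : Monotone fun m : ℕ => term q m k := by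
  intro m m' hmm
  unfold term
  apply ciSup_le
  intro N
  have h := G_trans_act (show 0 < q by linarith) ((m' : ℤ) - m) 0 N 0 N ((m : ℤ), 0)
    (((m + 1 + k : ℕ) : ℤ), 0)
  rw [← h]
  simp only
  have e1 : (m : ℤ) + ((m' : ℤ) - m) = m' := by ring
  have e2 : ((m + 1 + k : ℕ) : ℤ) + ((m' : ℤ) - m) = ((m' + 1 + k : ℕ) : ℤ) := by push_cast; ring
  rw [e1, e2]
  refine (G_mono hq (V' := rect 0 ((N + (m' - m) : ℕ) : ℤ) 0 ((N + (m' - m) : ℕ) : ℤ)) ?_ _ _).trans
    (G_le_GQ hq _ _ _ _)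
  apply rect_mono <;> push_cast <;> omega

lemma term_le_GH (hq : 1 ≤ q) (m k : ℕ) : term q m k ≤ GH q k := by
  unfold term
  apply ciSup_le
  intro N
  by_cases hN : m ≤ N
  · have h := G_le_half hq k m (N - m) N (N := N) hN (by omega) le_rfl
    rw [show m + (N - m) = N by omega, show m + (k + 1) = m + 1 + k by ring] at h
    exact h.trans (le_ciSup (bdd_GH (by linarith) k) N)
  · -- the source is outside the box: use a bigger box
    push Not at hN
    have h1 : G q (rect 0 (N : ℤ) 0 N) ((m : ℤ), 0) (((m + 1 + k : ℕ) : ℤ), 0)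
        ≤ G q (rect 0 (m : ℤ) 0 m) ((m : ℤ), 0) (((m + 1 + k : ℕ) : ℤ), 0) :=
      G_mono hq (rect_mono le_rfl (by exact_mod_cast hN.le) le_rfl (by exact_mod_cast hN.le)) _ _
    have h := G_le_half hq k m 0 m (N := m) (le_refl m) (Nat.zero_le m) (le_refl m)
    have e : m + (k + 1) = m + 1 + k := by ring
    rw [Nat.add_zero, e] at h
    have h2 := le_ciSup (bdd_GH (q := q) (by linarith) k) m
    simp only [e] at h2
    exact (h1.trans h).trans h2

lemma half_le_term (hq : 1 ≤ q) (N k : ℕ) :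
    G q (rect 0 ((2 * N : ℕ) : ℤ) 0 N) ((N : ℤ), 0) (((N + (k + 1) : ℕ) : ℤ), 0) ≤ term q N k := by
  unfold term
  rw [show N + 1 + k = N + (k + 1) by ring]
  exact G_le_GQ hq _ _ _ _

lemma tendsto_term (hq : 1 ≤ q) (k : ℕ) : Tendsto (fun m : ℕ => term q m k) atTop (𝓝 (GH q k)) :=
  tendsto_of_tendsto_of_tendsto_of_le_of_le (tendsto_GH hq k) tendsto_const_nhds
    (fun N => half_le_term hq N k) (fun m => term_le_GH hq m k)

lemma left_sum_eq (m : ℕ) :
    ∑ i ∈ range m, GQ q (m, 0) ((i : ℕ), 0) = ∑ k ∈ range m, term q (m - 1 - k) k := by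
  rw [← Finset.sum_range_reflect]
  apply sum_congr rfl
  intro k hk
  rw [mem_range] at hk
  unfold term GQ
  congr 1
  ext N
  rw [G_symm, show m - 1 - k + 1 + k = m by omega]

/-- the identity in the quarter-plane in terms of `term` -/
lemma quarter_sum' (hq : 1 < q) (m : ℕ) :
    (q - 1) * ∑' k, term q m k = 1 + √q + ∑ k ∈ range m, term q (m - 1 - k) k := by
  rw [quarter_sum hq m, left_sum_eq]

/-- shifted left sums converge -/
lemma tendsto_left (hq : 1 ≤ q) (K : ℕ) :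
    Tendsto (fun m : ℕ => ∑ k ∈ range K, term q (m - 1 - k) k) atTop (𝓝 (∑ k ∈ range K, GH q k)) := by
  apply tendsto_finsetSum
  intro k _
  have h : Tendsto (fun m : ℕ => m - 1 - k) atTop atTop := by
    have : (fun m : ℕ => m - 1 - k) = fun m => m - (1 + k) := by ext m; omega
    rw [this]
    exact tendsto_sub_atTop_nat (1 + k)
  exact (tendsto_term hq k).comp h

/-- key inequality when the half-plane sum is finite -/
lemma key_lower (hq : 1 < q) (hs : Summable (GH q)) :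
    1 + √q + ∑' k, GH q k ≤ (q - 1) * ∑' k, GH q k := by
  have hq1 : 1 ≤ q := by linarith
  have hK : ∀ K : ℕ, 1 + √q + ∑ k ∈ range K, GH q k ≤ (q - 1) * ∑' k, GH q k := by
    intro K
    have ht := (tendsto_left hq1 K).const_add (1 + √q)
    apply le_of_tendsto ht
    filter_upwards [eventually_ge_atTop K] with m hm
    have h1 := quarter_sum' hq m
    have h2 : ∑ k ∈ range K, term q (m - 1 - k) k ≤ ∑ k ∈ range m, term q (m - 1 - k) k := by
      apply sum_le_sum_of_subset_of_nonneg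
      · intro k hk; rw [mem_range] at hk ⊢; omega
      · intro k _ _; exact term_nonneg hq1 _ _
    have h3 : ∑' k, term q m k ≤ ∑' k, GH q k :=
      (summable_term hq m).tsum_le_tsum (fun k => term_le_GH hq1 m k) hs
    have h4 := mul_le_mul_of_nonneg_left h3 (show 0 ≤ q - 1 by linarith)
    linarith
  have ht := (hs.hasSum.tendsto_sum_nat).const_add (1 + √q)
  exact le_of_tendsto' ht hK

theorem half_summable (hq : 2 < q) : Summable (GH q) ∧ ∑' k, GH q k ≤ (1 + √q) / (q - 2) := by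
  have hq1 : 1 ≤ q := by linarith
  have hb : ∀ m, ∑' k, term q m k ≤ (1 + √q) / (q - 2) := by
    intro m
    rw [le_div_iff₀ (by linarith)]
    have h1 := quarter_sum' (by linarith : 1 < q) m
    have h2 : ∑ k ∈ range m, term q (m - 1 - k) k ≤ ∑' k, term q m k := by
      refine le_trans (sum_le_sum (fun k _ => term_mono hq1 k (show m - 1 - k ≤ m by omega))) ?_
      exact (summable_term (by linarith) m).sum_le_tsum _ (fun k _ => term_nonneg hq1 m k)
    linarith
  have hK : ∀ K : ℕ, ∑ k ∈ range K, GH q k ≤ (1 + √q) / (q - 2) := by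
    intro K
    have ht : Tendsto (fun m : ℕ => ∑ k ∈ range K, term q m k) atTop
        (𝓝 (∑ k ∈ range K, GH q k)) := tendsto_finsetSum _ (fun k _ => tendsto_term hq1 k)
    apply le_of_tendsto' ht
    intro m
    exact ((summable_term (by linarith) m).sum_le_tsum _ (fun k _ => term_nonneg hq1 m k)).trans (hb m)
  have hs : Summable (GH q) := summable_of_sum_range_le (GH_nonneg hq1) hK
  exact ⟨hs, hs.tsum_le_of_sum_range_le hK⟩

theorem half_sum (hq : 2 < q) : HasSum (GH q) ((1 + √q) / (q - 2)) := by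
  obtain ⟨hs, hle⟩ := half_summable hq
  have hge := key_lower (by linarith) hs
  have : ∑' k, GH q k = (1 + √q) / (q - 2) := by
    apply le_antisymm hle
    rw [div_le_iff₀ (by linarith)]
    linarith
  rw [← this]
  exact hs.hasSum

theorem half_not_summable (hq : 1 < q) (hq2 : q ≤ 2) : ¬ Summable (GH q) := by
  intro hs
  have h := key_lower hq hs
  have h0 : 0 ≤ ∑' k, GH q k := tsum_nonneg (GH_nonneg (by linarith))
  have h1 := Real.sqrt_nonneg q
  nlinarith

/-- at `q = 1` the corner two-point function is at least `c / k` -/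
theorem one_lower : ∃ c : ℝ, 0 < c ∧ ∀ k : ℕ, c / (k + 1) ≤ term 1 0 k := by
  obtain ⟨c, C, hc, hC, h⟩ := two_point_main
  refine ⟨c, hc, fun k => ?_⟩
  have h1 := (h (k + 1) (2 * (k + 1)) (by omega)).1 le_rfl
  have h2 : cornerTwoPoint (2 * (k + 1)) (k + 1)
      = G 1 (rect 0 ((2 * (k + 1) : ℕ) : ℤ) 0 ((2 * (k + 1) : ℕ) : ℤ)) (0, 0) (((k + 1 : ℕ) : ℤ), 0) := by
    unfold cornerTwoPoint G P
    rw [domain_rect]
  rw [h2] at h1
  have h3 := G_le_GQ (q := 1) le_rfl (2 * (k + 1)) (2 * (k + 1)) (0, 0) (((k + 1 : ℕ) : ℤ), 0)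
  have h4 : term 1 0 k = GQ 1 (0, 0) (((k + 1 : ℕ) : ℤ), 0) := by
    unfold term; rw [show 0 + 1 + k = k + 1 by ring]; simp
  rw [h4]
  push_cast at h1 h3 ⊢
  exact h1.trans h3

lemma not_summable_of_lower {f : ℕ → ℝ} {c : ℝ} (hc : 0 < c) (h : ∀ k : ℕ, c / (k + 1) ≤ f k) :
    ¬ Summable f := by
  intro hs
  have h1 : Summable (fun k : ℕ => c / ((k : ℝ) + 1)) :=
    Summable.of_nonneg_of_le (fun k => by positivity) h hs
  have h2 : Summable (fun k : ℕ => c⁻¹ * (c / ((k : ℝ) + 1))) := h1.mul_left _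
  have h3 : Summable (fun k : ℕ => 1 / ((k : ℝ) + 1)) := by
    refine h2.congr (fun k => ?_)
    field_simp
  have h4 : Summable (fun k : ℕ => 1 / ((k : ℝ))) := by
    rw [← summable_nat_add_iff 1]
    refine h3.congr (fun k => ?_)
    push_cast; ring
  exact Real.not_summable_one_div_natCast h4

theorem quarter_not_summable_one : ¬ Summable (term 1 0) := by
  obtain ⟨c, hc, h⟩ := one_lower
  exact not_summable_of_lower hc h

theorem half_not_summable_one : ¬ Summable (GH 1) := by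
  obtain ⟨c, hc, h⟩ := one_lower
  exact not_summable_of_lower hc (fun k => (h k).trans (term_le_GH le_rfl 0 k))

end Pool.Agent.H95.Susc
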