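import Mathlib
import Pool.Agent.H95.Susc.Defs
import Pool.Agent.H95.Susc.Half

namespace Pool.Agent.H95.Susc

open Finset Pool.Agent.H95.SumRule Pool.Agent.H95.Perc Filter Topology

lemma quarterTwoPoint_eq (q : ℝ) (N i j : ℕ) :
    quarterTwoPoint q N i j = G q (rect 0 N 0 N) ((i : ℤ), 0) ((j : ℤ), 0) := by
  unfold quarterTwoPoint G P
  rw [domain_rect]

lemma halfTwoPoint_eq (q : ℝ) (N k : ℕ) :
    halfTwoPoint q N k = G q (rect 0 ((2 * N : ℕ) : ℤ) 0 N) ((N : ℤ), 0) (((N + k : ℕ) : ℤ), 0) := by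
  unfold halfTwoPoint G P
  rw [domain_rect]

theorem quarter_main (q : ℝ) (hq : 1 ≤ q) : ∃ g : ℕ → ℕ → ℝ,
    (∀ i j, Tendsto (fun N => quarterTwoPoint q N i j) atTop (𝓝 (g i j))) ∧
    (Summable (fun k => g 0 (k + 1)) ↔ 1 < q) ∧
    (1 < q → ∀ m, HasSum (fun k => (q - 1) * g m (m + 1 + k)) (1 + √q + ∑ i ∈ range m, g m i)) := by
  have e0 : (fun k : ℕ => GQ q (((0 : ℕ) : ℤ), 0) (((k + 1 : ℕ) : ℤ), 0)) = term q 0 := by
    ext k; unfold term; rw [show 0 + 1 + k = k + 1 by ring]
  refine ⟨fun i j => GQ q ((i : ℤ), 0) ((j : ℤ), 0), ?_, ?_, ?_⟩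
  · intro i j
    simp only [quarterTwoPoint_eq]
    exact tendsto_G hq _ _
  · simp only
    rw [e0]
    constructor
    · intro hs
      by_contra h
      have h1 : q = 1 := le_antisymm (not_lt.mp h) hq
      rw [h1] at hs
      exact quarter_not_summable_one hs
    · intro h
      exact summable_term h 0
  · intro h1 m
    have h := (summable_term h1 m).hasSum.mul_left (q - 1)
    rw [quarter_sum h1 m] at h
    exact h

theorem half_main (q : ℝ) (hq : 1 ≤ q) : ∃ g : ℕ → ℝ,
    (∀ k, Tendsto (fun N => halfTwoPoint q N (k + 1)) atTop (𝓝 (g k))) ∧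
    (Summable g ↔ 2 < q) ∧ (2 < q → HasSum g ((1 + √q) / (q - 2))) := by
  refine ⟨GH q, ?_, ?_, fun h => half_sum h⟩
  · intro k
    simp only [halfTwoPoint_eq]
    exact tendsto_GH hq k
  · constructor
    · intro hs
      by_contra h
      push Not at h
      rcases hq.lt_or_eq with h1 | h1
      · exact half_not_summable h1 h hs
      · rw [← h1] at hs
        exact half_not_summable_one hs
    · intro h
      exact (half_sum h).summable

end Pool.Agent.H95.Susc
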